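import Pool.Agent.V11133.BEI.GLim
import Pool.Agent.Y797.GC.Unr
import Pool.Agent.Y797.GC.Gen
set_option autoImplicit false

/-!
The Beilinson-Bloch conjecture for `K_2` of curves over `ℚ`: the limit formula for the regulators of
the integral classes of the curves
`λ g ∏_i (y - φ_i(x)) ^ (w_i + 1) ∏_k (x - ρ_k) ^ ν_k = 1` over `ℚ`, with arbitrary `φ_i ∈ ℤ[x]`,
`ρ_k ∈ ℤ` and `g ∈ ℤ[x, y]`. For every pair `(i, k)` there is a loop `Γ_{i,k}` in the complex points on
which the regulators of *all* the classes `∑ n_{i,k} {y - φ_i(x), x - ρ_k}` with admissible coefficients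
are `- (2 π n_{i,k} + o(1)) log |λ|`, so that the regulator determinants of families of such classes are
asymptotically `(- 2 π log |λ|) ^ b` times the determinants of their coefficients; for a basis of the
space of the admissible coefficients, of dimension `b` (at least the genus of the curve in the nodal
case), and suitable loops, they are asymptotically `(- 2 π log |λ|) ^ b`.
-/

namespace Pool.Agent.Results.MP_743d1e_nt.RegulatorDeterminantLimits

open Pool.Agent.TH826.MK (KQ Unramified Torus)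

open Pool.Agent.Y797.GC

/-- The data: polynomials `φ_i` in `ℤ[x]`, numbers `w_i`, integers `ρ_k`, numbers `ν_k` and a
polynomial `g` in `ℤ[x, y]`. -/
structure IntData (r p : ℕ) where
  /-- the polynomials `φ_i(x)` -/
  phi : Fin (r + 1) → Polynomial ℤ
  /-- the numbers `w_i` -/
  w : Fin (r + 1) → ℕ
  /-- the integers `ρ_k` -/
  rho : Fin p → ℤ
  /-- the numbers `ν_k` -/
  nu : Fin p → ℕ
  /-- the polynomial `g(x, y)` in `ℤ[x][y]` -/
  g : Polynomial (Polynomial ℤ)

variable {r p : ℕ}

/-- The data over `ℚ`. -/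
noncomputable def IntData.toArr (D : IntData r p) : Arr ℚ r p where
  phi i := (D.phi i).map (Int.castRingHom ℚ)
  w := D.w
  rho k := Int.castRingHom ℚ (D.rho k)
  nu := D.nu
  g := D.g.map (Polynomial.mapRingHom (Int.castRingHom ℚ))

/-- The `φ_i` are different, the `ρ_k` are different, and `g` does not vanish at the points
`(ρ_k, φ_i(ρ_k))`. -/
def IntData.Good (D : IntData r p) : Prop :=
  Function.Injective D.phi ∧ Function.Injective D.rho ∧
    ∀ i k, (D.g.eval (D.phi i)).eval (D.rho k) ≠ 0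

/-- The embedding of `ℚ` in `ℂ`. -/
noncomputable def emb : ℚ →+* ℂ := algebraMap ℚ ℂ

/-- The lower bounds for the dimension of the space of the admissible coefficients. -/
def DimensionBounds (A : Arr ℚ r p) : Prop :=
  (r + 1) * p + 1 ≤ A.dim + A.comps ∧
    ∀ d, (∀ k, A.nu k ≤ 1) → A.Nodal d → (r + 1).choose 2 * d + r * ∑ k, A.nu k ≤ A.dim + r

/-- There is a basis `B_m` of the space of the admissible coefficients and there are pairs
`e_l = (i_l, k_l)` such that the `e_l`-th coefficient of `B_m` is `1` for `l = m` and `0` for `l ≠ m`. -/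
def DualBasis (A : Arr ℚ r p) : Prop :=
  ∃ (B : Fin A.dim → Fin (r + 1) → Fin p → ℚ) (e : Fin A.dim → Fin (r + 1) × Fin p), A.IsBasis B ∧
    ∀ l m, B m (e l).1 (e l).2 = if l = m then 1 else 0

/-- The classes with admissible coefficients have unramified images in `K_2 ⊗ ℚ` of all fields `L`
with a homomorphism from the coordinate ring of the open part to `L`. -/
def UnramifiedClasses.{v} (A : Arr ℚ r p) (lam : ℚ) : Prop :=
  ∀ n, A.IsAdm n → ∀ (L : Type v) [Field L] (f : A.Open lam →+* L),
    KQ.map 2 f (A.cl lam n) ∈ Unramified L 2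

/-- There are loops `Γ_{i,k}` in the complex points of the open part of the curve such that for all
`n` the regulator of the class of `n` on `Γ_{i,k}`, divided by `- log |λ|`, differs from
`2 π n_{i,k}` by at most `ε ∑ |n_{j,l}|`. -/
def LoopsWithin (A : Arr ℚ r p) (lam : ℚ) (ε : ℝ) : Prop :=
  ∃ Γ : Fin (r + 1) → Fin p → Torus (A.Open lam) 1,
    (∀ i k θ (x : ℚ), (Γ i k).e θ (A.toO lam (Polynomial.C (Polynomial.C x))) = emb x) ∧
    ∀ (n : Fin (r + 1) → Fin p → ℚ) i k,
      |(Γ i k).reg (A.cl lam n) / (-Real.log ‖emb lam‖) - 2 * Real.pi * (n i k : ℝ)| ≤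
        ε * ∑ j, ∑ l, |(n j l : ℝ)|

/-- There are `b` loops in the complex points of the open part of the curve such that the determinant
of the regulators of the classes of `B_1, ..., B_b` on them, divided by `(- log |λ|) ^ b`, differs
from `(2 π) ^ b det (B_{m, e_l})` by less than `ε`. -/
def DeterminantWithin (A : Arr ℚ r p) (lam : ℚ) {b : ℕ}
    (B : Fin b → Fin (r + 1) → Fin p → ℚ) (e : Fin b → Fin (r + 1) × Fin p) (ε : ℝ) : Prop :=
  ∃ Γ : Fin b → Torus (A.Open lam) 1,
    (∀ l θ (x : ℚ), (Γ l).e θ (A.toO lam (Polynomial.C (Polynomial.C x))) = emb x) ∧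
    |(Matrix.of fun l m => (Γ l).reg (A.cl lam (B m))).det / (-Real.log ‖emb lam‖) ^ b -
      (2 * Real.pi) ^ b * (((Matrix.of fun l m => B m (e l).1 (e l).2).det : ℚ) : ℝ)| < ε

theorem isInt (z : ℤ) : IsIntegral ℤ (Int.castRingHom ℚ z) := isIntegral_algebraMap

theorem cast_inj : Function.Injective (Int.castRingHom ℚ) := Int.cast_injective

/-- Let `φ_0, ..., φ_r` be different polynomials in `ℤ[x]`, let `ρ_1, ..., ρ_p` be different
integers, let `w_i ≥ 0` and `ν_k ≥ 0` be integers, and let `g` be a polynomial in `ℤ[x, y]` which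
does not vanish at the points `(ρ_k, φ_i(ρ_k))`. Let `Adm` be the space of the rational matrices
`(n_{i,k})` such that the sums of the rows and of the columns vanish, and for every `k` with
`ν_k = 0` and every `z` the sum of the `n_{i,k}` over all `i` with `φ_i(ρ_k) = z` vanishes; its
dimension `b` satisfies the `DimensionBounds`, and it has a basis dual to `b` of the coordinates.

For every `ε > 0` there is a constant `C` such that for all integers `λ` with `|λ| ≥ C` the curve
`λ g ∏_i (y - φ_i(x)) ^ (w_i + 1) ∏_k (x - ρ_k) ^ ν_k = 1` over `ℚ` is smooth, the classes of the `n`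
in `Adm` in `K_2 ⊗ ℚ` are unramified, and there are loops `Γ_{i,k}` on which the regulators of all
the classes, divided by `- log |λ|`, are `2 π n_{i,k}` up to `ε ∑ |n_{j,l}|`. Hence for all
`B_1, ..., B_b` and all pairs `e_1, ..., e_b` the determinant of the regulators, divided by
`(- log |λ|) ^ b`, tends to `(2 π) ^ b det (B_{m, e_l})`. -/
theorem result.{v} (r p : ℕ) (D : IntData r p) (hD : D.Good) :
    DimensionBounds D.toArr ∧ DualBasis D.toArr ∧
    (∀ ε : ℝ, 0 < ε → ∃ C : ℝ, ∀ lam : ℤ, C ≤ |(lam : ℝ)| →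
      D.toArr.Smooth (lam : ℚ) emb ∧ UnramifiedClasses.{v} D.toArr (lam : ℚ) ∧
        LoopsWithin D.toArr (lam : ℚ) ε) ∧
    ∀ (b : ℕ) (B : Fin b → Fin (r + 1) → Fin p → ℚ) (e : Fin b → Fin (r + 1) × Fin p) (ε : ℝ),
      0 < ε → ∃ C : ℝ, ∀ lam : ℤ, C ≤ |(lam : ℝ)| →
        DeterminantWithin D.toArr (lam : ℚ) B e ε := by
  obtain ⟨hphi, hrho, hv⟩ := hD
  have hphi' : Function.Injective D.toArr.phi :=
    (Polynomial.map_injective _ cast_inj).comp hphi
  have hrho' : Function.Injective D.toArr.rho := cast_inj.comp hrho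
  have hv' : ∀ i k, (D.toArr.g.eval (D.toArr.phi i)).eval (D.toArr.rho k) ≠ 0 := by
    intro i k h
    apply hv i k
    apply cast_inj
    rw [map_zero, ← h]
    change _ = ((D.g.map (Polynomial.mapRingHom (Int.castRingHom ℚ))).eval
      ((Polynomial.mapRingHom (Int.castRingHom ℚ)) (D.phi i))).eval (Int.castRingHom ℚ (D.rho k))
    rw [Polynomial.eval_map_apply, Polynomial.coe_mapRingHom, Polynomial.eval_map_apply]
  have hphiI : ∀ i j, IsIntegral ℤ ((D.toArr.phi i).coeff j) := by
    intro i j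
    change IsIntegral ℤ (((D.phi i).map (Int.castRingHom ℚ)).coeff j)
    rw [Polynomial.coeff_map]
    exact isInt _
  have hgI : ∀ i j, IsIntegral ℤ ((D.toArr.g.coeff i).coeff j) := by
    intro i j
    change IsIntegral ℤ (((D.g.map (Polynomial.mapRingHom (Int.castRingHom ℚ))).coeff i).coeff j)
    rw [Polynomial.coeff_map, Polynomial.coe_mapRingHom, Polynomial.coeff_map]
    exact isInt _
  have hnorm : ∀ lam : ℤ, ‖emb (lam : ℚ)‖ = |(lam : ℝ)| := by
    intro lam
    have h1 : emb (lam : ℚ) = ((lam : ℝ) : ℂ) := by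
      rw [map_intCast]
      norm_num
    rw [h1, Complex.norm_real, Real.norm_eq_abs]
  refine ⟨⟨finrank_Adm _, fun d h1 h2 => genus_le _ h1 h2⟩,
    Pool.Agent.V11133.BEI.exists_echelon _, fun ε hε => ?_, fun b B e ε hε => ?_⟩
  · obtain ⟨Λ, hΛ1, hΛ⟩ := Pool.Agent.V11133.BEI.exists_loops (A := D.toArr) emb hphi' hrho' hv' hε
    obtain ⟨Λ', hΛ'1, hΛ'⟩ := exists_smooth D.toArr emb
    refine ⟨max Λ Λ', fun lam hl => ?_⟩
    rw [← hnorm] at hl
    exact ⟨hΛ' lam ((le_max_right _ _).trans hl), fun n hn L _ f =>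
      cl_mem_unramified f hphiI (fun k => isInt _) hgI (isInt lam) hn,
      hΛ lam ((le_max_left _ _).trans hl)⟩
  · obtain ⟨Λ, hΛ1, hΛ⟩ := Pool.Agent.V11133.BEI.det_limit (A := D.toArr) emb hphi' hrho' hv' B e hε
    refine ⟨Λ, fun lam hl => hΛ lam ?_⟩
    rwa [hnorm]

end Pool.Agent.Results.MP_743d1e_nt.RegulatorDeterminantLimits
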